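
import Pool.Agent.P8H50.SG.Zero

/-!
Subvarieties of the zero locus of the largest dimension.
-/

set_option autoImplicit false

open FF Pool.Agent.W603.LV Pool.Agent.W602.GT MvPolynomial Pool.Agent.P8H50.SG

namespace Pool.Agent.P8H90.RG

variable {k : Type} [Field k] {n r : ℕ} (S : Sys k n r) {K : Type} [Field K] [Algebra k K]

/-- The closed subvariety with the generic point `(x, y, w)` is a product of projective lines: for a
set `J` of indices it is the set of the points where the `w i` vanish and the coordinates `x j : y j`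
with `j ∉ J` have given constant values. Its function field is generated by the algebraically
independent functions `x j / y j`, `j ∈ J`. -/
def IsBox (k : Type) [Field k] {n r : ℕ} {K : Type} [Field K] [Algebra k K] (x y : Fin n → K)
    (w : Fin r → K) : Prop :=
  (∀ i, w i = 0) ∧ ∃ J : Finset (Fin n), (∀ j ∈ J, y j ≠ 0) ∧
    AlgebraicIndependent k (fun j : J => x j / y j) ∧
    IntermediateField.adjoin k (Set.range fun j : J => x j / y j) = ⊤ ∧
    ∀ j ∉ J, ∃ c c' : k, (c ≠ 0 ∨ c' ≠ 0) ∧ algebraMap k K c' * x j = algebraMap k K c * y j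

/-- at most `n - r` coordinates of a point of the zero locus are not constant -/
theorem card_le (hS : S.Good) {x y : Fin n → K} {w : Fin r → K} (hN : Normal x y)
    (h : S.Point x y w) (hw : ∀ i, w i = 0) (J : Finset (Fin n))
    (hJ : ∀ j ∈ J, Transcendental k (x j)) : J.card + r ≤ n := by
  classical
  obtain ⟨σ, hσ, hz⟩ := S.zero_sigma hS h hw
  have h1 : Disjoint J (Finset.univ.image σ) := by
    rw [Finset.disjoint_left]
    intro j hj hj2
    obtain ⟨i, -, rfl⟩ := Finset.mem_image.1 hj2
    obtain ⟨l, hl⟩ := hz i
    obtain ⟨c, -, h2, -⟩ := S.const_of_zero hS (hN (σ i)) hl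
    apply hJ _ hj
    rw [h2]
    exact isAlgebraic_algebraMap c
  have h2 : (Finset.univ.image σ).card = r := by
    rw [Finset.card_image_of_injective _ hσ]
    simp
  have h3 := Finset.card_le_univ (J ∪ Finset.univ.image σ)
  rw [Finset.card_union_of_disjoint h1, h2, Fintype.card_fin] at h3
  exact h3

/-- the dimension is at most the number of the nonconstant coordinates -/
theorem le_card [IsAlgClosed k] {x : Fin n → K} {J : Finset (Fin n)}
    (halg : Algebra.IsAlgebraic (IntermediateField.adjoin k (Set.range x)) K)
    (hJ : ∀ j ∉ J, ¬ Transcendental k (x j)) {d : ℕ} (hd : Algebra.trdeg k K = d) :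
    d ≤ J.card := by
  classical
  have halg' : Algebra.IsAlgebraic
      (IntermediateField.adjoin k (Set.range fun j : J => x j)) K := by
    refine alg_le (L := IntermediateField.adjoin k (Set.range x)) ?_ halg
    rw [IntermediateField.adjoin_le_iff]
    rintro _ ⟨j, rfl⟩
    by_cases hj : j ∈ J
    · exact IntermediateField.subset_adjoin k _ ⟨⟨j, hj⟩, rfl⟩
    · have h1 : IsAlgebraic k (x j) := by
        by_contra h2
        exact hJ j hj h2
      obtain ⟨c, hc⟩ := const_of_algebraic h1
      rw [hc]
      exact IntermediateField.algebraMap_mem _ c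
  have halg2 := alg_adjoin halg'
  have h1 := Algebra.IsAlgebraic.trdeg_le_cardinalMk (R := k) (A := K)
    (Set.range fun j : J => x j)
  rw [hd] at h1
  have h2 : Cardinal.mk (Set.range fun j : J => x j) ≤ Cardinal.mk J := Cardinal.mk_range_le
  have h3 : Cardinal.mk J = J.card := Cardinal.mk_coe_finset
  rw [h3] at h2
  exact_mod_cast h1.trans h2

/-- normalised coordinates and ratios -/
theorem trans_ratio {x y : Fin n → K} (ht : ∀ j, Sys.nf x y j ≠ 0)
    (hN : Normal (fun j => Sys.nf x y j * x j) fun j => Sys.nf x y j * y j) {j : Fin n}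
    (h2 : Transcendental k (Sys.nf x y j * x j)) : Transcendental k (x j / y j) := by
  have h3 : (Sys.nf x y j * x j) / (Sys.nf x y j * y j) = x j / y j :=
    mul_div_mul_left _ _ (ht j)
  rcases hN j with h4 | ⟨h4, -⟩
  · rw [← h3]
    have h5 : Sys.nf x y j * y j = 1 := h4
    rwa [h5, div_one]
  · exfalso
    apply h2
    have h5 : Sys.nf x y j * x j = 1 := h4
    rw [h5]
    exact isAlgebraic_one

/-- a nonconstant coordinate -/
theorem exists_trans [IsAlgClosed k] (hS : S.Good) {d : ℕ} (hd : 1 ≤ d) {x y : Fin n → K}
    {w : Fin r → K} (V : S.Subvariety d x y w) : ∃ j, Transcendental k (x j / y j) := by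
  classical
  have ht := S.nf_ne V.point
  have hN := S.nf_normal V.point
  have V' := Sys.Subvariety.scale S hS ht V
  have halg := S.alg hS hN V'
  set x' : Fin n → K := fun j => Sys.nf x y j * x j with hx'
  set y' : Fin n → K := fun j => Sys.nf x y j * y j with hy'
  set J : Finset (Fin n) := Finset.univ.filter fun j => Transcendental k (x' j) with hJ
  have h1 : d ≤ J.card := le_card halg (fun j hj h =>
    hj (Finset.mem_filter.2 ⟨Finset.mem_univ j, h⟩)) V.dim
  obtain ⟨j, hj⟩ : J.Nonempty := by
    rw [← Finset.card_pos]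
    omega
  exact ⟨j, trans_ratio ht hN (Finset.mem_filter.1 hj).2⟩

/-- **Subvarieties of the zero locus of the largest dimension.** -/
theorem box [IsAlgClosed k] [CharZero k] (hS : S.Good) {d : ℕ} (hd : 1 ≤ d) (hn : n ≤ r + d)
    {x y : Fin n → K} {w : Fin r → K} (V : S.Subvariety d x y w) (hw : ∀ i, w i = 0) :
    n = r + d ∧ IsBox k x y w := by
  classical
  have ht := S.nf_ne V.point
  have hN := S.nf_normal V.point
  have V' := Sys.Subvariety.scale S hS ht V
  have hw' : ∀ i, (∏ j, Sys.nf x y j ^ S.deg i j) * w i = 0 := fun i => by rw [hw i, mul_zero]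
  set x' : Fin n → K := fun j => Sys.nf x y j * x j with hx'
  set y' : Fin n → K := fun j => Sys.nf x y j * y j with hy'
  set J : Finset (Fin n) := Finset.univ.filter fun j => Transcendental k (x' j) with hJ
  have hJt : ∀ j ∈ J, Transcendental k (x' j) := fun j hj => (Finset.mem_filter.1 hj).2
  have hJn : ∀ j ∉ J, ¬ Transcendental k (x' j) := fun j hj h =>
    hj (Finset.mem_filter.2 ⟨Finset.mem_univ j, h⟩)
  have hcard := card_le S hS hN V'.point hw' J hJt
  have hconst : ∀ j ∉ J, ∃ c : k, x' j = algebraMap k K c := by
    intro j hj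
    have h1 : IsAlgebraic k (x' j) := by
      by_contra h2
      exact hJn j hj h2
    exact const_of_algebraic h1
  have htop : IntermediateField.adjoin k (Set.range fun j : J => x' j) = ⊤ := by
    refine S.top_le hN V' (fun j => ?_) fun i => by rw [hw' i]; exact zero_mem _
    by_cases hj : j ∈ J
    · exact IntermediateField.subset_adjoin k _ ⟨⟨j, hj⟩, rfl⟩
    · obtain ⟨c, hc⟩ := hconst j hj
      rw [hc]
      exact (IntermediateField.adjoin k (Set.range fun j : J => x' j)).algebraMap_mem c
  have halg : Algebra.IsAlgebraic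
      (IntermediateField.adjoin k (Set.range fun j : J => x' j)) K := by
    rw [htop]
    exact ⟨fun u => isAlgebraic_algebraMap (A := K)
      (⟨u, trivial⟩ : (⊤ : IntermediateField k K))⟩
  obtain ⟨j0, hj0⟩ : J.Nonempty := by
    by_contra hcon
    rw [Finset.not_nonempty_iff_eq_empty] at hcon
    have h1 : IntermediateField.adjoin k (Set.range fun j : J => x' j) = ⊥ := by
      rw [eq_bot_iff, IntermediateField.adjoin_le_iff]
      rintro _ ⟨⟨j, hj⟩, rfl⟩
      rw [hcon] at hj
      simp at hj
    rw [htop] at h1
    have h3 : Algebra.IsAlgebraic k K := by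
      refine ⟨fun u => ?_⟩
      have h4 : u ∈ (⊥ : IntermediateField k K) := by rw [← h1]; trivial
      obtain ⟨c, rfl⟩ := IntermediateField.mem_bot.1 h4
      exact isAlgebraic_algebraMap c
    have h4 := V.dim
    rw [_root_.trdeg_eq_zero] at h4
    have h5 : (0 : ℕ) = d := by exact_mod_cast h4
    omega
  obtain ⟨s, -, hs⟩ := bases (k := k) (fun j : J => x' j) (fun j => hJt j j.2) V.dim halg
    ⟨j0, hj0⟩
  have hsinj : Function.Injective s := by
    intro a b hab
    exact hs.1.injective (by simp only [hab])
  have hcd : d ≤ J.card := by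
    have := Fintype.card_le_of_injective s hsinj
    simpa using this
  have hJd : J.card = d := by omega
  have hsb : Function.Bijective s := by
    rw [Fintype.bijective_iff_injective_and_card]
    exact ⟨hsinj, by simp [hJd]⟩
  have hind : AlgebraicIndependent k (fun j : J => x' j) := by
    have h1 := hs.1.comp (Equiv.ofBijective s hsb).symm (Equiv.injective _)
    have h2 : (fun i => x' (s i)) ∘ (Equiv.ofBijective s hsb).symm = fun j : J => x' j := by
      funext j
      simp only [Function.comp]
      have h3 : s ((Equiv.ofBijective s hsb).symm j) = j :=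
        (Equiv.ofBijective s hsb).apply_symm_apply j
      rw [h3]
    rwa [h2] at h1
  have hy1 : ∀ j ∈ J, y' j = 1 := by
    intro j hj
    rcases hN j with h1 | ⟨h1, -⟩
    · exact h1
    · exfalso
      apply hJt j hj
      have h2 : x' j = 1 := h1
      rw [h2]
      exact isAlgebraic_one
  have hrat : ∀ j ∈ J, x' j = x j / y j := by
    intro j hj
    have h1 : x' j / y' j = x j / y j := mul_div_mul_left _ _ (ht j)
    rw [← h1, hy1 j hj, div_one]
  have hfun : (fun j : J => x' j) = fun j : J => x j / y j := by
    funext j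
    exact hrat j j.2
  refine ⟨by omega, hw, J, ?_, ?_, ?_, ?_⟩
  · intro j hj h0
    have h1 := hy1 j hj
    rw [hy'] at h1
    simp only [h0, mul_zero] at h1
    exact zero_ne_one h1
  · rwa [← hfun]
  · rwa [← hfun]
  · intro j hj
    obtain ⟨c, hc⟩ := hconst j hj
    obtain ⟨c', hc'⟩ : ∃ c' : k, y' j = algebraMap k K c' := by
      rcases hN j with h1 | ⟨-, h1⟩
      · exact ⟨1, by rw [map_one]; exact h1⟩
      · exact ⟨0, by rw [map_zero]; exact h1⟩
    refine ⟨c, c', ?_, ?_⟩
    · by_contra hcon
      push Not at hcon
      rcases V'.point.ne j with h1 | h1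
      · apply h1
        change x' j = 0
        rw [hc, hcon.1, map_zero]
      · apply h1
        change y' j = 0
        rw [hc', hcon.2, map_zero]
    · have h1 : Sys.nf x y j * (algebraMap k K c' * x j) =
          Sys.nf x y j * (algebraMap k K c * y j) := by
        rw [← hc, ← hc']
        simp only [hx', hy']
        ring
      exact mul_left_cancel₀ (ht j) h1

end Pool.Agent.P8H90.RG
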