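import Pool.Agent.W602.GT.SpecDefs
import Pool.Agent.TH710.WH.Defs

/-!
Unirational varieties and varieties dominated by special varieties, by their function fields.
-/

set_option autoImplicit false

open FF Pool.Agent.W602.GT

namespace Pool.Agent.P8H90.RG

/-- The varieties with function field `K` are unirational: there is a dominant rational map from an
affine space to them. -/
def UniratField (k K : Type) [Field k] [Field K] [Algebra k K] : Prop :=
  ∃ m : ℕ, Nonempty (K →ₐ[k] FractionRing (MvPolynomial (Fin m) k))

/-- There is a dominant rational map to the varieties with function field `K` from a variety (with
function field `L`, of dimension `v`) which is special in the sense of Campana, possibly after the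
removal of a closed subset (the places in `Bd` are those whose centre is in this subset). -/
def SpecialDom (k K : Type) [Field k] [Field K] [Algebra k K] : Prop :=
  ∃ (L : Type) (_ : Field L) (_ : Algebra k L) (v : ℕ) (Bd : Place k L → Prop),
    Algebra.trdeg k L = v ∧ Special k L v Bd ∧ Nonempty (K →ₐ[k] L)

end Pool.Agent.P8H90.RG
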