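import Pool.Agent.P8H50.SG.OVer2
import Pool.Agent.P8H50.SG.Zero

/-!
Points of the system with values in an arbitrary field: the closure of the image is of general type.
-/

set_option autoImplicit false

open FF Pool.Agent.W603.LV Pool.Agent.W602.GT MvPolynomial Pool.Agent.P8H50.SG

namespace Pool.Agent.P8H90.RG

variable {k : Type} [Field k] {n r : ℕ} (S : Sys k n r) {L : Type} [Field L] [Algebra k L]

/-- a set of generators, inside of the field generated -/
theorem adjoin_preimage (T : Set L) :
    IntermediateField.adjoin k (Subtype.val ⁻¹' T : Set (IntermediateField.adjoin k T)) = ⊤ := by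
  have h1 : (IntermediateField.adjoin k
      (Subtype.val ⁻¹' T : Set (IntermediateField.adjoin k T))).map
        (IntermediateField.adjoin k T).val = IntermediateField.adjoin k T := by
    rw [IntermediateField.adjoin_map]
    congr 1
    ext u
    constructor
    · rintro ⟨v, hv, rfl⟩
      exact hv
    · intro hu
      exact ⟨⟨u, IntermediateField.subset_adjoin k T hu⟩, hu, rfl⟩
  rw [eq_top_iff]
  intro z _
  have h2 : (z : L) ∈ (IntermediateField.adjoin k
      (Subtype.val ⁻¹' T : Set (IntermediateField.adjoin k T))).map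
        (IntermediateField.adjoin k T).val := by
    rw [h1]
    exact z.2
  obtain ⟨z', hz', h3⟩ := h2
  have h4 : z' = z := Subtype.ext h3
  rw [← h4]
  exact hz'

theorem rhs_coe (M : IntermediateField k L) (i : Fin r) (x y : Fin n → M) :
    ((S.rhs i x y : M) : L) = S.rhs i (fun j => (x j : L)) fun j => (y j : L) := by
  unfold Sys.rhs
  change M.val _ = _
  simp only [map_prod, map_pow, map_add, map_mul]
  rfl

/-- **The closure of the image of a nonconstant map which does not meet the zero locus only is of
general type.** -/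
theorem general_sub [IsAlgClosed k] [CharZero k] (hS : S.Good) {v : ℕ}
    (hv : Algebra.trdeg k L = v) {x y : Fin n → L} {w : Fin r → L} (h : S.Point x y w) {i : Fin r}
    (hi : w i ≠ 0) {j : Fin n} (hj : Transcendental k (x j / y j)) :
    ∃ (M : IntermediateField k L) (T : Set M) (d : ℕ), T.Finite ∧
      IntermediateField.adjoin k T = ⊤ ∧ 1 ≤ d ∧ GeneralType k M d := by
  classical
  have ht := S.nf_ne h
  have hN := S.nf_normal h
  have h' := Sys.Point.scale S hS ht h
  set x' : Fin n → L := fun j => Sys.nf x y j * x j with hx'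
  set y' : Fin n → L := fun j => Sys.nf x y j * y j with hy'
  set w' : Fin r → L := fun i => (∏ j, Sys.nf x y j ^ S.deg i j) * w i with hw'
  have hj' : Transcendental k (x' j / y' j) := by
    have h1 : x' j / y' j = x j / y j := by
      rw [hx', hy']
      exact mul_div_mul_left _ _ (ht j)
    rwa [h1]
  have hi' : w' i ≠ 0 := mul_ne_zero (Sys.prod_ne ht (S.deg i)) hi
  set T0 : Set L := Set.range x' ∪ Set.range w' with hT0
  set M : IntermediateField k L := IntermediateField.adjoin k T0 with hM
  have hxM : ∀ j, x' j ∈ M := fun j =>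
    IntermediateField.subset_adjoin k _ (Or.inl ⟨j, rfl⟩)
  have hwM : ∀ i, w' i ∈ M := fun i =>
    IntermediateField.subset_adjoin k _ (Or.inr ⟨i, rfl⟩)
  have hyM : ∀ j, y' j ∈ M := fun j => Sys.Normal.y_mem hN M j
  let xM : Fin n → M := fun j => ⟨x' j, hxM j⟩
  let yM : Fin n → M := fun j => ⟨y' j, hyM j⟩
  let wM : Fin r → M := fun i => ⟨w' i, hwM i⟩
  have hP : S.Point xM yM wM := by
    refine ⟨fun j => ?_, fun i => ?_⟩
    · rcases h'.ne j with h1 | h1
      · exact Or.inl fun h2 => h1 (congrArg Subtype.val h2)
      · exact Or.inr fun h2 => h1 (congrArg Subtype.val h2)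
    · apply Subtype.ext
      rw [rhs_coe]
      exact h'.eq i
  have htop : IntermediateField.adjoin k (Subtype.val ⁻¹' T0 : Set M) = ⊤ := adjoin_preimage T0
  have hfin : (Subtype.val ⁻¹' T0 : Set M).Finite :=
    Set.Finite.preimage Subtype.val_injective.injOn
      ((Set.finite_range x').union (Set.finite_range w'))
  have hNM : Normal xM yM := by
    intro j
    rcases hN j with h1 | ⟨h1, h2⟩
    · exact Or.inl (Subtype.ext h1)
    · exact Or.inr ⟨Subtype.ext h1, Subtype.ext h2⟩
  have hgen : Sys.GenFinite k xM yM := by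
    unfold Sys.GenFinite
    set E := IntermediateField.adjoin k (Set.range fun j => xM j / yM j) with hE
    have hxE : ∀ j, xM j ∈ E := by
      intro j
      rcases hNM j with h1 | ⟨h1, -⟩
      · have h2 : xM j = xM j / yM j := by rw [h1, div_one]
        rw [h2]
        exact IntermediateField.subset_adjoin k _ ⟨j, rfl⟩
      · rw [h1]
        exact E.one_mem
    let A : IntermediateField k M := (algebraicClosure E M).restrictScalars k
    have hA : A = ⊤ := by
      rw [eq_top_iff, ← htop, IntermediateField.adjoin_le_iff]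
      rintro u hu
      rcases hu with ⟨j, hj⟩ | ⟨i, hi⟩
      · have h1 : u = xM j := Subtype.ext hj.symm
        rw [h1]
        change xM j ∈ algebraicClosure E M
        rw [mem_algebraicClosure_iff]
        exact isAlgebraic_algebraMap (⟨xM j, hxE j⟩ : E)
      · have h1 : u = wM i := Subtype.ext hi.symm
        rw [h1]
        change wM i ∈ algebraicClosure E M
        rw [mem_algebraicClosure_iff]
        have h2 : IsAlgebraic E (wM i ^ S.m i) := by
          rw [hP.eq i]
          exact isAlgebraic_algebraMap (⟨_, S.rhs_mem hxE (Sys.Normal.y_mem hNM E) i⟩ : E)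
        exact (isAlgebraic_iff_isIntegral.2
          ((isAlgebraic_iff_isIntegral.1 h2).of_pow (S.m_pos hS i)))
    refine ⟨fun u => ?_⟩
    rw [← mem_algebraicClosure_iff]
    have : u ∈ A := by rw [hA]; trivial
    exact this
  obtain ⟨d, hd⟩ : ∃ d : ℕ, Algebra.trdeg k M = d := by
    have h1 : Algebra.trdeg k M ≤ Algebra.trdeg k L :=
      _root_.trdeg_le_of_injective M.val M.val.toRingHom.injective
    rw [hv] at h1
    obtain ⟨d, hd⟩ := Cardinal.lt_aleph0.1 (h1.trans_lt Cardinal.natCast_lt_aleph0)
    exact ⟨d, hd⟩
  have hd1 : 1 ≤ d := by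
    by_contra hcon
    have h0 : d = 0 := by omega
    rw [h0, Nat.cast_zero, _root_.trdeg_eq_zero_iff] at hd
    apply hj'
    have h1 := hd.isAlgebraic (xM j / yM j)
    have h2 := h1.algHom M.val
    exact h2
  refine ⟨M, _, d, hfin, htop, hd1, ?_⟩
  have hiM : wM i ≠ 0 := fun h0 => hi' (congrArg Subtype.val h0)
  exact S.general_over hS hd1 hP hgen hd hiM

end Pool.Agent.P8H90.RG
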