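import Pool.Agent.P8H90.RG.Defs
import Pool.Agent.P8H90.RG.Sub
import Pool.Agent.P8H90.RG.Box
import Pool.Agent.W602.GT.SConst
import Pool.Agent.Y216.SV.Str

/-!
Rationality and unirationality of the varieties over a system of cyclic covers.
-/

set_option autoImplicit false

open FF Pool.Agent.W603.LV Pool.Agent.W602.GT MvPolynomial Pool.Agent.P8H50.SG
open Pool.Agent.TH710.WH (PurelyTranscendental)

namespace Pool.Agent.P8H90.RG

variable {k : Type} [Field k]

/-- rational varieties are special -/
theorem special_of_pt [IsAlgClosed k] [CharZero k] {K : Type} [Field K] [Algebra k K]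
    (h : PurelyTranscendental k K) : ∃ v : ℕ, Algebra.trdeg k K = v ∧
      Special k K v (fun _ => False) := by
  classical
  obtain ⟨τ, hτ, σ', hind, htop⟩ := h
  have hbasis : IsTranscendenceBasis k σ' := by
    rw [hind.isTranscendenceBasis_iff_isAlgebraic]
    apply alg_adjoin
    rw [htop]
    exact ⟨fun x => isAlgebraic_algebraMap (A := K) (⟨x, trivial⟩ : (⊤ : IntermediateField k K))⟩
  obtain ⟨v, ⟨φ⟩⟩ := Finite.exists_equiv_fin τ
  let σ : Fin v → K := σ' ∘ φ.symm
  have hσ : IsTranscendenceBasis k σ := hbasis.comp_equiv φ.symm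
  have htr : Algebra.trdeg k K = v := by
    have h1 := hσ.cardinalMk_eq_trdeg
    rw [Cardinal.mk_fin] at h1
    exact h1.symm
  refine ⟨v, htr, special_of_frame σ hσ ?_ fun _ _ h => h⟩
  have h1 : Set.range σ = Set.range σ' := by
    ext x
    constructor
    · rintro ⟨b, rfl⟩
      exact ⟨φ.symm b, rfl⟩
    · rintro ⟨b, rfl⟩
      exact ⟨φ b, by simp [σ]⟩
  rw [h1, htop]

/-- the field of rational functions -/
theorem pt_frac (k : Type) [Field k] (v : ℕ) :
    PurelyTranscendental k (FractionRing (MvPolynomial (Fin v) k)) := by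
  classical
  set L := FractionRing (MvPolynomial (Fin v) k)
  let t : Fin v → L := fun j => algebraMap (MvPolynomial (Fin v) k) L (MvPolynomial.X j)
  have hinj : Function.Injective (algebraMap (MvPolynomial (Fin v) k) L) :=
    IsFractionRing.injective _ _
  have hind : AlgebraicIndependent k t := by
    have h1 := (MvPolynomial.algebraicIndependent_X (Fin v) k).map'
      (f := IsScalarTower.toAlgHom k (MvPolynomial (Fin v) k) L) hinj
    exact h1
  have htop : IntermediateField.adjoin k (Set.range t) = ⊤ := by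
    rw [eq_top_iff]
    intro x _
    have hpol : ∀ p : MvPolynomial (Fin v) k, algebraMap (MvPolynomial (Fin v) k) L p ∈
        IntermediateField.adjoin k (Set.range t) := by
      intro p
      induction p using MvPolynomial.induction_on with
      | C c =>
        have h1 : algebraMap (MvPolynomial (Fin v) k) L (MvPolynomial.C c) = algebraMap k L c :=
          (IsScalarTower.algebraMap_apply k (MvPolynomial (Fin v) k) L c).symm
        rw [h1]
        exact IntermediateField.algebraMap_mem _ c
      | add p q hp hq =>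
        rw [map_add]
        exact add_mem hp hq
      | mul_X p j hp =>
        rw [map_mul]
        exact mul_mem hp (IntermediateField.subset_adjoin k _ ⟨j, rfl⟩)
    obtain ⟨p, q, -, rfl⟩ := IsFractionRing.div_surjective (A := MvPolynomial (Fin v) k) x
    exact div_mem (hpol p) (hpol q)
  exact ⟨Fin v, inferInstance, t, hind, htop⟩

/-- rational varieties are unirational -/
theorem unirat_of_pt {K : Type} [Field K] [Algebra k K] (h : PurelyTranscendental k K) :
    UniratField k K := by
  classical
  obtain ⟨τ, hτ, t, hind, htop⟩ := h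
  obtain ⟨v, ⟨φ⟩⟩ := Finite.exists_equiv_fin τ
  have hind' : AlgebraicIndependent k (t ∘ φ.symm) := hind.comp φ.symm φ.symm.injective
  have hr : Set.range (t ∘ φ.symm) = Set.range t := φ.symm.surjective.range_comp t
  have e1 := hind'.aevalEquivField
  have htop' : IntermediateField.adjoin k (Set.range (t ∘ φ.symm)) = ⊤ := by rw [hr, htop]
  refine ⟨v, ⟨?_⟩⟩
  have e2 : IntermediateField.adjoin k (Set.range (t ∘ φ.symm)) ≃ₐ[k] K :=
    (IntermediateField.equivOfEq htop').trans IntermediateField.topEquiv
  exact (e1.symm.toAlgHom).comp e2.symm.toAlgHom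

theorem dom_of_pt [IsAlgClosed k] [CharZero k] {K : Type} [Field K] [Algebra k K]
    (h : PurelyTranscendental k K) : SpecialDom k K := by
  obtain ⟨v, hv, hs⟩ := special_of_pt h
  exact ⟨K, inferInstance, inferInstance, v, fun _ => False, hv, hs, ⟨AlgHom.id k K⟩⟩

theorem dom_of_unirat [IsAlgClosed k] [CharZero k] {K : Type} [Field K] [Algebra k K]
    (h : UniratField k K) : SpecialDom k K := by
  obtain ⟨m, ⟨φ⟩⟩ := h
  obtain ⟨v, hv, hs⟩ := special_of_pt (pt_frac k m)
  exact ⟨_, inferInstance, inferInstance, v, fun _ => False, hv, hs, ⟨φ⟩⟩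

variable {n r : ℕ} (S : Sys k n r) {K : Type} [Field K] [Algebra k K]

/-- the image of a point under a homomorphism of fields -/
theorem point_of_hom {L : Type} [Field L] [Algebra k L] (φ : K →ₐ[k] L) {x y : Fin n → K}
    {w : Fin r → K} (h : S.Point x y w) :
    S.Point (fun j => φ (x j)) (fun j => φ (y j)) fun i => φ (w i) := by
  refine ⟨fun j => ?_, fun i => ?_⟩
  · rcases h.ne j with h1 | h1
    · exact Or.inl fun h2 => h1 ((map_eq_zero φ).1 h2)
    · exact Or.inr fun h2 => h1 ((map_eq_zero φ).1 h2)
  · rw [← map_pow, h.eq i]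
    unfold Sys.rhs
    simp only [map_prod, map_pow, map_add, map_mul, AlgHom.commutes]

/-- **Maps from varieties dominated by special varieties.** -/
theorem zero_of_dom [IsAlgClosed k] [CharZero k] (hS : S.Good) {x y : Fin n → K} {w : Fin r → K}
    (h : S.Point x y w) (hd : SpecialDom k K) {j : Fin n} (hj : Transcendental k (x j / y j))
    (i : Fin r) : w i = 0 := by
  by_contra hi
  obtain ⟨L, _, _, v, Bd, hv, hs, ⟨φ⟩⟩ := hd
  have h1 := point_of_hom S φ h
  have h2 : φ (w i) ≠ 0 := fun h0 => hi ((map_eq_zero φ).1 h0)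
  have h3 : Transcendental k (φ (x j) / φ (y j)) := by
    rw [← map_div₀]
    intro h4
    exact hj ((isAlgebraic_algHom_iff φ φ.toRingHom.injective).1 h4)
  obtain ⟨M, T, d, hT, htop, hd1, hg⟩ := general_sub S hS hv h1 (i := i) h2 (j := j) h3
  exact hs d hd1 (Pool.Agent.Y216.SV.bog_of_sub M hv hT htop hg Bd)

/-- constant coordinates -/
theorem const_of_not [IsAlgClosed k] {x y : K}
    (h : ¬ Transcendental k (x / y)) :
    ∃ c c' : k, (c ≠ 0 ∨ c' ≠ 0) ∧ algebraMap k K c' * x = algebraMap k K c * y := by
  by_cases hy : y = 0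
  · exact ⟨1, 0, Or.inl one_ne_zero, by rw [hy, map_zero, zero_mul, mul_zero]⟩
  · have h1 : IsAlgebraic k (x / y) := by
      by_contra h2
      exact h h2
    obtain ⟨c, hc⟩ := const_of_algebraic h1
    refine ⟨c, 1, Or.inr one_ne_zero, ?_⟩
    rw [map_one, one_mul, ← hc, div_mul_cancel₀ _ hy]

/-- the dimension of the zero locus -/
theorem dim_le [IsAlgClosed k] (hS : S.Good) {x y : Fin n → K} {w : Fin r → K}
    (h : S.Point x y w) (hg : Sys.GenFinite k x y) {d : ℕ} (hd : Algebra.trdeg k K = d)
    (hw : ∀ i, w i = 0) : r + d ≤ n := by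
  classical
  have ht := S.nf_ne h
  have hN := S.nf_normal h
  have h' := Sys.Point.scale S hS ht h
  have halg := Sys.GenFinite.norm S h hg
  set x' : Fin n → K := fun j => Sys.nf x y j * x j with hx'
  set J : Finset (Fin n) := Finset.univ.filter fun j => Transcendental k (x' j) with hJ
  have hcard := card_le S hS hN h' (fun i => by rw [hw i, mul_zero]) J
    fun j hj => (Finset.mem_filter.1 hj).2
  have hle : d ≤ J.card := le_card halg (fun j hj h =>
    hj (Finset.mem_filter.2 ⟨Finset.mem_univ j, h⟩)) hd
  omega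

/-- a nonconstant coordinate of a generically finite map -/
theorem gen_trans [IsAlgClosed k] {x y : Fin n → K} {w : Fin r → K}
    (h : S.Point x y w) (hg : Sys.GenFinite k x y) {d : ℕ} (hd : Algebra.trdeg k K = d)
    (hd1 : 1 ≤ d) : ∃ j, Transcendental k (x j / y j) := by
  classical
  have ht := S.nf_ne h
  have hN := S.nf_normal h
  have halg := Sys.GenFinite.norm S h hg
  set x' : Fin n → K := fun j => Sys.nf x y j * x j with hx'
  set y' : Fin n → K := fun j => Sys.nf x y j * y j with hy'
  set J : Finset (Fin n) := Finset.univ.filter fun j => Transcendental k (x' j) with hJ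
  have h1 : d ≤ J.card := le_card halg (fun j hj h =>
    hj (Finset.mem_filter.2 ⟨Finset.mem_univ j, h⟩)) hd
  obtain ⟨j, hj⟩ : J.Nonempty := by
    rw [← Finset.card_pos]
    omega
  exact ⟨j, trans_ratio ht hN (Finset.mem_filter.1 hj).2⟩

/-- **The subvarieties of large dimension.** -/
theorem tfae [IsAlgClosed k] [CharZero k] (hS : S.Good) {d : ℕ} (hd : 1 ≤ d) (hn : n ≤ r + d)
    {x y : Fin n → K} {w : Fin r → K} (V : S.Subvariety d x y w) :
    [∀ i, w i = 0, IsBox k x y w, PurelyTranscendental k K, UniratField k K, SpecialDom k K,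
      Special k K d (fun _ => False), ¬ GeneralType k K d].TFAE := by
  tfae_have 1 → 2 := fun h => (box S hS hd hn V h).2
  tfae_have 2 → 3 := by
    rintro ⟨-, J, -, h1, h2, -⟩
    exact ⟨J, inferInstance, _, h1, h2⟩
  tfae_have 3 → 4 := unirat_of_pt
  tfae_have 4 → 5 := dom_of_unirat
  tfae_have 3 → 6 := by
    intro h
    obtain ⟨v, hv, hs⟩ := special_of_pt h
    rw [V.dim] at hv
    obtain rfl : d = v := by exact_mod_cast hv
    exact hs
  tfae_have 6 → 7 := by
    intro h hg
    exact h d hd (Pool.Agent.Y216.SV.bog_of_lgt (Pool.Agent.Y190.QP.lgt_of_gt hg))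
  tfae_have 7 → 1 := by
    intro h i
    by_contra hi
    exact h (S.general_type hS hd V hi)
  tfae_have 5 → 1 := by
    intro h
    obtain ⟨j, hj⟩ := exists_trans S hS hd V
    exact zero_of_dom S hS V.point h hj
  tfae_finish

end Pool.Agent.P8H90.RG
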